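import Pool.Agent.MWI.StmtsT

/-!
# Row WJR of squad MWI (MP_23468a_al): letters `y` on the right, none on the left; `Jn`
-/

set_option autoImplicit false

namespace Pool.Agent.MWI.H86

open Pool.Agent.Helper14_MV Pool.Agent.Helper2_MV Pool.Agent.MWF

theorem pA_eq_pl {a b : ℕ → ℕ} : ∀ {P : List ℕ}, (∀ i ∈ P, a i + b i = 0) → pA a b P = pl P := by
  intro P
  induction P with
  | nil => intro _; rfl
  | cons i P ih =>
    intro hP
    have h1 : a i = 0 ∧ b i = 0 := by
      have := hP i (by simp)
      omega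
    have h2 := ih (fun j hj => hP j (by simp [hj]))
    unfold pA pl at h2 ⊢
    rw [List.flatMap_cons, List.flatMap_cons, h2, h1.1, h1.2]
    simp

theorem pl_filter (P : List ℕ) : (pl P).filter it = ts P := by
  induction P with
  | nil => rfl
  | cons i P ih =>
    unfold pl ts at ih ⊢
    rw [List.flatMap_cons, List.filter_append, ih, List.map_cons]
    have e1 : it (3 * i + 2) = false := by
      unfold it
      rw [decide_eq_false_iff_not]
      omega
    have e2 : it (3 * i + 1) = true := by
      unfold it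
      rw [decide_eq_true_iff]
      omega
    rw [List.filter_cons_of_neg (by rw [e1]; decide), List.filter_cons_of_pos e2]
    rfl

theorem pl_last (P : List ℕ) : ∀ l a, pl P = l ++ [a] → a % 3 = 1 := by
  intro l a h
  rcases List.eq_nil_or_concat P with rfl | ⟨P', i, rfl⟩
  · have h1 := congrArg List.length h
    simp [pl] at h1
  · rw [List.concat_eq_append] at h
    have e : pl (P' ++ [i]) = (pl P' ++ [3 * i + 2]) ++ [3 * i + 1] := by
      unfold pl
      rw [List.flatMap_append]
      simp
    rw [e] at h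
    have h1 := (List.append_inj' h rfl).2
    have h2 : 3 * i + 1 = a := by simpa using h1
    omega

theorem zz_mod {h : List ℕ} {c : ℕ} (hc : c ∈ zz h) : c % 3 = 2 := by
  unfold zz at hc
  obtain ⟨i, _, rfl⟩ := List.mem_map.1 hc
  omega

theorem zz_count (h : List ℕ) : (zz h).count 0 = 0 := by
  rw [List.count_eq_zero]
  intro hc
  have := zz_mod hc
  omega

theorem pC_head {a b : ℕ → ℕ} {Q : List ℕ} : ∀ x l, pC a b Q = x :: l → x % 3 = 1 := by
  intro x l h
  cases Q with
  | nil => simp [pC] at h
  | cons q Q =>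
    unfold pC at h
    rw [List.flatMap_cons, List.cons_append] at h
    have : 3 * q + 1 = x := by
      injection h
    omega

theorem rep_filter_it (k : ℕ) : (List.replicate k 0).filter it = [] := by
  rw [List.filter_eq_nil_iff]
  intro c hc
  have := (List.mem_replicate.1 hc).2
  subst this
  decide

theorem rep_filter_nz (k : ℕ) : (List.replicate k 0).filter nz = [] := by
  rw [List.filter_eq_nil_iff]
  intro c hc
  have := (List.mem_replicate.1 hc).2
  subst this
  decide

theorem pC_filter_it {a b : ℕ → ℕ} (Q : List ℕ) : (pC a b Q).filter it = ts Q := by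
  induction Q with
  | nil => rfl
  | cons i Q ih =>
    unfold pC ts at ih ⊢
    rw [List.flatMap_cons, List.filter_append, ih, List.map_cons]
    have e1 : it (3 * i + 2) = false := by
      unfold it
      rw [decide_eq_false_iff_not]
      omega
    have e2 : it (3 * i + 1) = true := by
      unfold it
      rw [decide_eq_true_iff]
      omega
    rw [List.filter_cons_of_pos e2, List.filter_append, rep_filter_it,
      List.filter_cons_of_neg (by rw [e1]; decide), rep_filter_it]
    rfl

theorem pC_filter_nz {a b : ℕ → ℕ} (Q : List ℕ) : (pC a b Q).filter nz = pr Q := by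
  induction Q with
  | nil => rfl
  | cons i Q ih =>
    unfold pC pr at ih ⊢
    rw [List.flatMap_cons, List.filter_append, ih, List.flatMap_cons]
    have e1 : nz (3 * i + 2) = true := by
      unfold nz
      rw [decide_eq_true_iff]
      omega
    have e2 : nz (3 * i + 1) = true := by
      unfold nz
      rw [decide_eq_true_iff]
      omega
    rw [List.filter_cons_of_pos e2, List.filter_append, rep_filter_nz,
      List.filter_cons_of_pos e1, rep_filter_nz]
    rfl

theorem pC_mem {a b : ℕ → ℕ} {Q : List ℕ} {c : ℕ} (hc : c ∈ pC a b Q) (h : c % 3 = 0) : c = 0 := by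
  unfold pC at hc
  obtain ⟨i, _, h1⟩ := List.mem_flatMap.1 hc
  simp only [List.mem_cons, List.mem_append, List.mem_replicate] at h1
  omega

theorem pC_mem_t {a b : ℕ → ℕ} {Q : List ℕ} {i : ℕ} (hc : 3 * i + 1 ∈ pC a b Q) : i ∈ Q := by
  unfold pC at hc
  obtain ⟨j, hj, h1⟩ := List.mem_flatMap.1 hc
  simp only [List.mem_cons, List.mem_append, List.mem_replicate] at h1
  have : i = j := by omega
  rw [this]; exact hj

theorem pA_mem_t {a b : ℕ → ℕ} {Q : List ℕ} {i : ℕ} (hc : 3 * i + 1 ∈ pA a b Q) : i ∈ Q := by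
  unfold pA at hc
  obtain ⟨j, hj, h1⟩ := List.mem_flatMap.1 hc
  simp only [List.mem_cons, List.mem_append, List.mem_replicate, List.not_mem_nil, or_false] at h1
  have : i = j := by omega
  rw [this]; exact hj

theorem pl_eq (P : List ℕ) : pl P = pA (fun _ => 0) (fun _ => 0) P := by
  rw [pA_eq_pl (fun i _ => rfl)]

theorem pr_eq (P : List ℕ) : pr P = pC (fun _ => 0) (fun _ => 0) P := by
  unfold pr pC
  rfl

theorem pl_count (P : List ℕ) : (pl P).count 0 = 0 := by
  rw [List.count_eq_zero]
  intro hc
  unfold pl at hc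
  obtain ⟨i, _, h1⟩ := List.mem_flatMap.1 hc
  simp at h1

theorem pr_count (P : List ℕ) : (pr P).count 0 = 0 := by
  rw [List.count_eq_zero]
  intro hc
  unfold pr at hc
  obtain ⟨i, _, h1⟩ := List.mem_flatMap.1 hc
  simp at h1

/-- a word with the left part `pl P` -/
theorem mk_bd {P Q w M C : List ℕ} (hw : w = pl P ++ (M ++ C)) (h1 : C.filter it = ts Q)
    (h2 : ∀ c ∈ M, c % 3 ≠ 1) (h3 : ∀ a l, C = a :: l → a % 3 = 1)
    (h4 : ∀ h, M ≠ 0 :: (zz h ++ [0])) : Bd P Q w :=
  ⟨pl P, M, C, hw, pl_filter P, h1, h2, pl_last P, h3, h4⟩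

theorem ne_blk {M : List ℕ} (h : 3 ≤ M.count 0) : ∀ h', M ≠ 0 :: (zz h' ++ [0]) := by
  intro h' e
  rw [e, List.count_cons, List.count_append, zz_count] at h
  simp at h

/-- `C1 ++ 0^r ++ C2` -/
theorem cfac {Q C C1 C2 : List ℕ} (hC : C = C1 ++ 0 :: C2) (hf : C.filter it = ts Q)
    (hh : ∀ a l, C = a :: l → a % 3 = 1) (r : ℕ) :
    (C1 ++ (List.replicate r 0 ++ C2)).filter it = ts Q ∧
      ∀ a l, C1 ++ (List.replicate r 0 ++ C2) = a :: l → a % 3 = 1 := by
  constructor
  · rw [← hf, hC, List.filter_append, List.filter_append, List.filter_append, rep_filter_it,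
      List.filter_cons_of_neg (by decide)]
    rfl
  · intro a l e
    cases C1 with
    | nil =>
      have := hh 0 C2 hC
      omega
    | cons c C1 =>
      have h1 := hh c (C1 ++ 0 :: C2) hC
      rw [List.cons_append] at e
      have : c = a := by injection e
      rw [← this]; exact h1

/-- the substitution `0 ↦ 0`, `1 ↦ u`, `4 ↦ v` -/
def sg (u v : List ℕ) (c : ℕ) : List ℕ := if c = 0 then [0] else if c = 1 then u else v

theorem sg_rep (u v : List ℕ) (k : ℕ) : (List.replicate k 0).flatMap (sg u v) =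
    List.replicate k 0 := by
  induction k with
  | zero => rfl
  | succ k ih => rw [List.replicate_succ, List.flatMap_cons, ih]; rfl

theorem ctx3 {β : FIC} (p q : List ℕ) {l l' : List ℕ} (h : RR β l l') :
    RR β (p ++ (l ++ q)) (p ++ (l' ++ q)) := by
  have := ctx p q h
  rw [List.append_assoc, List.append_assoc] at this
  exact this

/-- `Jn` in context -/
theorem jctx {n : ℕ} {β : FIC} (hJ : Jn n β) (X u v Y : List ℕ) :
    RR β (X ++ (0 :: (u ++ 0 :: (v ++ 0 :: Y))))
      (X ++ (0 :: (u ++ 0 :: (v ++ (List.replicate (n + 1) 0 ++ Y))))) := by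
  have h1 := hJ.sub (sg u v)
  have h2 := ctx3 X Y h1
  have e1 : [0, 1, 0, 4, 0].flatMap (sg u v) ++ Y = 0 :: (u ++ 0 :: (v ++ 0 :: Y)) := by
    simp [sg]
  have e2 : ([0, 1, 0, 4] ++ List.replicate (n + 1) 0).flatMap (sg u v) ++ Y =
      0 :: (u ++ 0 :: (v ++ (List.replicate (n + 1) 0 ++ Y))) := by
    rw [List.flatMap_append, sg_rep]
    simp [sg]
  rw [e1, e2] at h2
  exact h2

/-- the projection to `0` and `t_i`, with `t_i ↦ 1` -/
def pt (i : ℕ) (c : ℕ) : List ℕ := if c = 0 then [0] else if c = 3 * i + 1 then [1] else []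

theorem pt_of {i : ℕ} : ∀ {L : List ℕ}, 3 * i + 1 ∉ L →
    L.flatMap (pt i) = List.replicate (L.count 0) 0 := by
  intro L
  induction L with
  | nil => intro _; rfl
  | cons c L ih =>
    intro h
    have h1 := ih (fun hc => h (List.mem_cons_of_mem _ hc))
    have h2 : c ≠ 3 * i + 1 := fun e => h (by rw [e]; simp)
    rw [List.flatMap_cons, h1]
    by_cases hc : c = 0
    · subst hc
      rw [List.count_cons_self, List.replicate_succ]
      rfl
    · rw [List.count_cons_of_ne hc]
      unfold pt
      rw [if_neg hc, if_neg h2]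
      rfl

theorem zz_t {i : ℕ} {h : List ℕ} : 3 * i + 1 ∉ zz h := by
  intro hc
  have := zz_mod hc
  omega

theorem pl_t {i : ℕ} {P : List ℕ} (hi : i ∉ P) : 3 * i + 1 ∉ pl P := by
  rw [pl_eq]
  exact fun h => hi (pA_mem_t h)

theorem pr_t {i : ℕ} {P : List ℕ} (hi : i ∉ P) : 3 * i + 1 ∉ pr P := by
  rw [pr_eq]
  exact fun h => hi (pC_mem_t h)

/-- `W` projected to `0`, `t_q`, `q` the head of `Q` -/
theorem proj_q {P Q h : List ℕ} {q : ℕ} (hP : q ∉ P) (hQ : q ∉ Q) (a b : ℕ → ℕ) :
    (pl P ++ (0 :: (zz h ++ 0 :: pC a b (q :: Q)))).flatMap (pt q) =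
      [0, 0, 1] ++ List.replicate (a q + b q + (pC a b Q).count 0) 0 := by
  have e1 : pC a b (q :: Q) = (3 * q + 1) :: ((List.replicate (a q) 0 ++ (3 * q + 2) ::
      List.replicate (b q) 0) ++ pC a b Q) := by
    unfold pC
    rw [List.flatMap_cons, List.cons_append]
  have e2 : (List.replicate (a q) 0 ++ (3 * q + 2) ::
      List.replicate (b q) 0).flatMap (pt q) = List.replicate (a q + b q) 0 := by
    rw [pt_of (by
      intro hc
      simp only [List.mem_cons, List.mem_append, List.mem_replicate] at hc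
      omega), List.count_append, List.count_cons_of_ne (by omega), List.count_replicate_self,
      List.count_replicate_self]
  have e3 : pt q 0 = [0] := rfl
  have e4 : pt q (3 * q + 1) = [1] := by
    unfold pt
    rw [if_neg (by omega), if_pos rfl]
  rw [e1, List.flatMap_append, List.flatMap_cons, List.flatMap_append, List.flatMap_cons,
    List.flatMap_cons, List.flatMap_append, e2, pt_of (pl_t hP), pt_of zz_t,
    pt_of (L := pC a b Q) (fun hc => hQ (pC_mem_t hc)), pl_count, zz_count, e3, e4,
    ← List.replicate_add]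
  rfl

/-- `W` projected to `0`, `t_i`, `i` in `P` -/
theorem proj_p {P1 P2 Q h : List ℕ} {i : ℕ} (hP1 : i ∉ P1) (hP2 : i ∉ P2) (hQ : i ∉ Q) :
    (ww (P1 ++ i :: P2) Q h).flatMap (pt i) = [1, 0, 0] := by
  have e1 : pl (P1 ++ i :: P2) = pl P1 ++ ((3 * i + 2) :: (3 * i + 1) :: pl P2) := by
    unfold pl
    rw [List.flatMap_append, List.flatMap_cons]
    rfl
  have e3 : pt i 0 = [0] := rfl
  have e4 : pt i (3 * i + 1) = [1] := by
    unfold pt
    rw [if_neg (by omega), if_pos rfl]
  have e5 : pt i (3 * i + 2) = [] := by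
    unfold pt
    rw [if_neg (by omega), if_neg (by omega)]
  unfold ww
  rw [e1, List.flatMap_append, List.flatMap_append, List.flatMap_cons, List.flatMap_cons,
    List.flatMap_cons, List.flatMap_append, List.flatMap_cons, pt_of (pl_t hP1),
    pt_of (pl_t hP2), pt_of zz_t, pt_of (pr_t hQ), pl_count, pl_count, zz_count, pr_count, e3, e4,
    e5]
  rfl

theorem proj_p' {P1 P2 R : List ℕ} {i : ℕ} (hP1 : i ∉ P1) (a b : ℕ → ℕ) {v : List ℕ}
    (h : (pA a b (P1 ++ i :: P2) ++ R).flatMap (pt i) = 1 :: v) : a i + b i = 0 := by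
  have e1 : pA a b (P1 ++ i :: P2) = pA a b P1 ++ ((List.replicate (a i) 0 ++ (3 * i + 2) ::
      (List.replicate (b i) 0)) ++ ((3 * i + 1) :: pA a b P2)) := by
    unfold pA
    rw [List.flatMap_append, List.flatMap_cons]
    simp
  have e2 : (List.replicate (a i) 0 ++ (3 * i + 2) ::
      List.replicate (b i) 0).flatMap (pt i) = List.replicate (a i + b i) 0 := by
    rw [pt_of (by
      intro hc
      simp only [List.mem_cons, List.mem_append, List.mem_replicate] at hc
      omega), List.count_append, List.count_cons_of_ne (by omega), List.count_replicate_self,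
      List.count_replicate_self]
  rw [e1, List.append_assoc, List.append_assoc, List.flatMap_append, List.flatMap_append, e2,
    pt_of (L := pA a b P1) (fun hc => hP1 (pA_mem_t hc)), ← List.append_assoc,
    ← List.replicate_add] at h
  by_contra hne
  obtain ⟨k, hk⟩ : ∃ k, (pA a b P1).count 0 + (a i + b i) = k + 1 :=
    ⟨(pA a b P1).count 0 + (a i + b i) - 1, by omega⟩
  rw [hk, List.replicate_succ, List.cons_append] at h
  injection h with h1 h2
  omega

theorem wjr (hEN1 : En1Stmt) (hOSJ : OsjStmt) (hNO1 : No1Stmt) (hNO2 : No2Stmt)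
    (hN2E : N2eStmt) (hWDC : WdcStmt) : WjrStmt := by
  intro n β T hJ a b P Q h m hm hPQ hh hW hP hQ
  have hnd : (P ++ Q).Nodup := hPQ.nodup_iff.2 (List.nodup_range)
  set C := pC a b Q with hCdef
  have hw0 : bb a b P (0 :: (zz h ++ [0])) Q = pl P ++ (0 :: (zz h ++ 0 :: C)) := by
    unfold bb
    rw [pA_eq_pl hP]
    simp [hCdef]
  rw [hw0] at hW
  have hCf : C.filter it = ts Q := pC_filter_it Q
  have hCh : ∀ x l, C = x :: l → x % 3 = 1 := pC_head
  have h0 : 0 ∈ C := by
    obtain ⟨i, hi, hi0⟩ := hQ
    rw [hCdef]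
    unfold pC
    refine List.mem_flatMap.2 ⟨i, hi, ?_⟩
    simp only [List.mem_cons, List.mem_append, List.mem_replicate]
    by_cases hai : a i = 0
    · right; right; right
      exact ⟨by omega, trivial⟩
    · right; left
      exact ⟨hai, trivial⟩
  obtain ⟨C1, C2, hC⟩ := List.append_of_mem h0
  -- the word with `0^(n+1)`
  have hn1 := T.pos
  have hw1 : RR β (ww P Q (List.range m))
      (pl P ++ (0 :: (zz h ++ 0 :: (C1 ++ (List.replicate (n + 1) 0 ++ C2))))) := by
    refine rtr hW ?_
    rw [hC]
    exact jctx hJ (pl P) (zz h) C1 C2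
  by_cases hO1 : O1 β
  swap
  · obtain ⟨k, hk, hk1⟩ := hNO1 n β T hO1
    have h2 := hk1.sub (sg (zz h ++ 0 :: C1) [])
    have e1 : [1, 0, 0].flatMap (sg (zz h ++ 0 :: C1) []) = (zz h ++ 0 :: C1) ++ [0, 0] := by
      simp [sg]
    have e2 : (List.replicate k 0 ++ [1, 0, 0]).flatMap (sg (zz h ++ 0 :: C1) []) =
        List.replicate k 0 ++ ((zz h ++ 0 :: C1) ++ [0, 0]) := by
      rw [List.flatMap_append, sg_rep, e1]
    rw [e1, e2] at h2
    have h3 := ctx3 (pl P ++ [0]) (List.replicate (n - 1) 0 ++ C2) h2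
    obtain ⟨n', rfl⟩ : ∃ n', n = n' + 1 := ⟨n - 1, by omega⟩
    have e3 : (pl P ++ [0]) ++ (((zz h ++ 0 :: C1) ++ [0, 0]) ++
        (List.replicate (n' + 1 - 1) 0 ++ C2)) =
        pl P ++ (0 :: (zz h ++ 0 :: (C1 ++ (List.replicate (n' + 1 + 1) 0 ++ C2)))) := by
      simp [List.replicate_succ]
    have e4 : (pl P ++ [0]) ++ ((List.replicate k 0 ++ ((zz h ++ 0 :: C1) ++ [0, 0])) ++
        (List.replicate (n' + 1 - 1) 0 ++ C2)) =
        pl P ++ ((0 :: (List.replicate k 0 ++ (zz h ++ [0]))) ++
          (C1 ++ (List.replicate (n' + 1 + 1) 0 ++ C2))) := by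
      simp [List.replicate_succ]
    rw [e3, e4] at h3
    refine ⟨_, rtr hw1 h3, mk_bd rfl (cfac hC hCf hCh _).1 ?_ (cfac hC hCf hCh _).2 (ne_blk ?_)⟩
    · intro c hc
      simp only [List.mem_cons, List.mem_append, List.mem_replicate, List.not_mem_nil,
        or_false] at hc
      rcases hc with hc | hc | hc | hc
      · omega
      · omega
      · have := zz_mod hc
        omega
      · omega
    · rw [List.count_cons_self, List.count_append, List.count_replicate_self]
      omega
  by_cases hO2 : O2 β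
  swap
  · obtain ⟨k, hk, hk1⟩ := hNO2 n β T hO2
    -- `0^(n+1) ~ 0^k 0^r`
    obtain ⟨r, hr⟩ : ∃ r, n + 1 + k * n = k + r := by
      refine ⟨n + 1 + k * n - k, ?_⟩
      have : k ≤ k * n := Nat.le_mul_of_pos_right k hn1
      omega
    have h2 := per_pow T.per (n + 1) 0 (by omega) k
    rw [hr] at h2
    have h3 := ctx3 (pl P ++ (0 :: (zz h ++ 0 :: C1))) C2 h2
    have e3 : (pl P ++ (0 :: (zz h ++ 0 :: C1))) ++ (Rp (n + 1) 0 ++ C2) =
        pl P ++ (0 :: (zz h ++ 0 :: (C1 ++ (List.replicate (n + 1) 0 ++ C2)))) := by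
      simp
    have e4 : (pl P ++ (0 :: (zz h ++ 0 :: C1))) ++ (Rp (k + r) 0 ++ C2) =
        pl P ++ (0 :: (zz h ++ 0 :: (C1 ++ (List.replicate k 0 ++
          (List.replicate r 0 ++ C2))))) := by
      have e : Rp (k + r) 0 = List.replicate k 0 ++ List.replicate r 0 :=
        List.replicate_add k r 0
      rw [e]
      simp only [List.append_assoc, List.cons_append]
    rw [e3, e4] at h3
    have hw2 := rtr hw1 h3
    rcases hk1 with hk1 | hk1
    · have h5 := hk1.sub (sg (zz h ++ 0 :: C1) [])
      have e1 : [0, 0, 1].flatMap (sg (zz h ++ 0 :: C1) []) = 0 :: 0 :: (zz h ++ 0 :: C1) := by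
        simp [sg]
      have e2 : ([0, 1] ++ List.replicate k 0).flatMap (sg (zz h ++ 0 :: C1) []) =
          0 :: ((zz h ++ 0 :: C1) ++ List.replicate k 0) := by
        rw [List.flatMap_append, sg_rep]
        simp [sg]
      rw [e1, e2] at h5
      have h6 := ctx3 (pl P) (List.replicate r 0 ++ C2) h5.symm
      have e5 : pl P ++ ((0 :: ((zz h ++ 0 :: C1) ++ List.replicate k 0)) ++
          (List.replicate r 0 ++ C2)) = pl P ++ (0 :: (zz h ++ 0 :: (C1 ++ (List.replicate k 0 ++
          (List.replicate r 0 ++ C2))))) := by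
        simp
      have e6 : pl P ++ ((0 :: 0 :: (zz h ++ 0 :: C1)) ++ (List.replicate r 0 ++ C2)) =
          pl P ++ ((0 :: 0 :: (zz h ++ [0])) ++ (C1 ++ (List.replicate r 0 ++ C2))) := by
        simp
      rw [e5, e6] at h6
      refine ⟨_, rtr hw2 h6, mk_bd rfl (cfac hC hCf hCh _).1 ?_ (cfac hC hCf hCh _).2
        (ne_blk ?_)⟩
      · intro c hc
        simp only [List.mem_cons, List.mem_append, List.not_mem_nil, or_false] at hc
        rcases hc with hc | hc | hc | hc
        · omega
        · omega
        · have := zz_mod hc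
          omega
        · omega
      · rw [List.count_cons_self, List.count_cons_self, List.count_append]
        have : [0].count 0 = 1 := rfl
        omega
    · have h5 := hk1.sub (sg (zz h ++ 0 :: C1) [])
      have e1 : [0, 0, 1].flatMap (sg (zz h ++ 0 :: C1) []) = 0 :: 0 :: (zz h ++ 0 :: C1) := by
        simp [sg]
      have e2 : (1 :: List.replicate k 0).flatMap (sg (zz h ++ 0 :: C1) []) =
          ((zz h ++ 0 :: C1) ++ List.replicate k 0) := by
        rw [List.flatMap_cons, sg_rep]
        simp [sg]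
      rw [e1, e2] at h5
      have h6 := ctx3 (pl P ++ [0]) (List.replicate r 0 ++ C2) h5.symm
      have e5 : (pl P ++ [0]) ++ ((((zz h ++ 0 :: C1) ++ List.replicate k 0)) ++
          (List.replicate r 0 ++ C2)) = pl P ++ (0 :: (zz h ++ 0 :: (C1 ++ (List.replicate k 0 ++
          (List.replicate r 0 ++ C2))))) := by
        simp
      have e6 : (pl P ++ [0]) ++ ((0 :: 0 :: (zz h ++ 0 :: C1)) ++ (List.replicate r 0 ++ C2)) =
          pl P ++ ((0 :: 0 :: 0 :: (zz h ++ [0])) ++ (C1 ++ (List.replicate r 0 ++ C2))) := by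
        simp
      rw [e5, e6] at h6
      refine ⟨_, rtr hw2 h6, mk_bd rfl (cfac hC hCf hCh _).1 ?_ (cfac hC hCf hCh _).2
        (ne_blk ?_)⟩
      · intro c hc
        simp only [List.mem_cons, List.mem_append, List.not_mem_nil, or_false] at hc
        rcases hc with hc | hc | hc | hc | hc
        · omega
        · omega
        · omega
        · have := zz_mod hc
          omega
        · omega
      · rw [List.count_cons_self, List.count_cons_self, List.count_cons_self]
        omega
  -- the case O1 and O2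
  cases Q with
  | nil =>
    obtain ⟨i, hi, _⟩ := hQ
    simp at hi
  | cons q Q =>
    have hqP : q ∉ P := fun hq => (List.disjoint_of_nodup_append hnd) hq (by simp)
    have hqQ : q ∉ Q := by
      have := (List.nodup_append.1 hnd).2.1
      exact (List.nodup_cons.1 this).1
    have hcount : 1 ≤ a q + b q + (pC a b Q).count 0 := by
      by_contra hne
      have h1 : a q = 0 ∧ b q = 0 ∧ (pC a b Q).count 0 = 0 := by omega
      obtain ⟨h1, h2, h3⟩ := h1
      rw [hCdef] at h0
      have e1 : pC a b (q :: Q) = (3 * q + 1) :: ((List.replicate (a q) 0 ++ (3 * q + 2) ::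
          List.replicate (b q) 0) ++ pC a b Q) := by
        unfold pC
        rw [List.flatMap_cons, List.cons_append]
      rw [e1, h1, h2] at h0
      rw [List.count_eq_zero] at h3
      simp only [List.replicate_zero, List.nil_append, List.mem_cons, List.mem_append,
        List.not_mem_nil, or_false] at h0
      rcases h0 with h0 | h0 | h0
      · omega
      · omega
      · exact h3 h0
    have hp := hW.sub (pt q)
    have e7 : ww P (q :: Q) (List.range m) = pl P ++ (0 :: (zz (List.range m) ++
        0 :: pC (fun _ => 0) (fun _ => 0) (q :: Q))) := by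
      unfold ww
      rw [← pr_eq]
    have e8 : (pC (fun _ => 0) (fun _ => 0) Q).count 0 = 0 := by
      rw [← pr_eq]; exact pr_count Q
    rw [e7, proj_q hqP hqQ, hCdef, proj_q hqP hqQ, e8] at hp
    have hp2 : RR β [0, 0, 1] ([0, 0, 1] ++
        List.replicate (a q + b q + (pC a b Q).count 0) 0) := by
      simpa using hp
    have hEn := hEN1 n β T _ hcount hp2
    have hOS := hOSJ n β T hJ hEn
    have hee : RR β (ww P (q :: Q) (List.range m))
        (ww P (q :: Q) (List.range m) ++ List.replicate n 0) := by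
      have h2 := hEn.sub (sg C2 [])
      have e1 : [0, 0, 1].flatMap (sg C2 []) = 0 :: 0 :: C2 := by simp [sg]
      have e2 : ([0, 0, 1] ++ List.replicate n 0).flatMap (sg C2 []) =
          0 :: 0 :: (C2 ++ List.replicate n 0) := by
        rw [List.flatMap_append, sg_rep, e1]
        simp
      rw [e1, e2] at h2
      have h3 := ctx3 (pl P ++ (0 :: (zz h ++ 0 :: (C1 ++ List.replicate (n - 1) 0)))) [] h2
      have er : List.replicate (n + 1) 0 = List.replicate (n - 1) 0 ++ [0, 0] := by
        have : ([0, 0] : List ℕ) = List.replicate 2 0 := rfl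
        rw [this, ← List.replicate_add]
        congr 1
        omega
      have e3 : (pl P ++ (0 :: (zz h ++ 0 :: (C1 ++ List.replicate (n - 1) 0)))) ++
          ((0 :: 0 :: C2) ++ []) =
          pl P ++ (0 :: (zz h ++ 0 :: (C1 ++ (List.replicate (n + 1) 0 ++ C2)))) := by
        rw [er]
        simp
      have e4 : (pl P ++ (0 :: (zz h ++ 0 :: (C1 ++ List.replicate (n - 1) 0)))) ++
          ((0 :: 0 :: (C2 ++ List.replicate n 0)) ++ []) =
          (pl P ++ (0 :: (zz h ++ 0 :: (C1 ++ (List.replicate (n + 1) 0 ++ C2))))) ++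
            List.replicate n 0 := by
        rw [er]
        simp
      rw [e3, e4] at h3
      exact rtr (rtr hw1 h3) (hw1.symm.append (RR.refl _))
    obtain ⟨w', hw', hthr⟩ := hN2E β T.md T.iso hOS hO1 hO2 T.lm P (q :: Q) m hm hPQ
      ⟨n, T.pos, hee⟩
    obtain ⟨a', b', M, h', hh', hbb, hMf⟩ := hWDC β T.iso P (q :: Q) m hPQ w' hw'
    have hP' : ∀ i ∈ P, a' i + b' i = 0 := by
      intro i hi
      obtain ⟨P1, P2, hPe⟩ := List.append_of_mem hi
      have hPn : P.Nodup := (List.nodup_append.1 hnd).1
      rw [hPe] at hPn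
      have hi1 : i ∉ P1 := fun hc => (List.disjoint_of_nodup_append hPn) hc (by simp)
      have hi2 : i ∉ P2 := (List.nodup_cons.1 (List.nodup_append.1 hPn).2.1).1
      have hi3 : i ∉ q :: Q := fun hc => (List.disjoint_of_nodup_append hnd) hi hc
      have h1 := hw'.sub (pt i)
      rw [hPe, proj_p hi1 hi2 hi3] at h1
      obtain ⟨v', hv'⟩ := hO1 _ h1
      rw [hbb, hPe] at hv'
      unfold bb at hv'
      exact proj_p' hi1 a' b' hv'
    have hw'' : w' = pl P ++ (M ++ pC a' b' (q :: Q)) := by
      rw [hbb]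
      unfold bb
      rw [pA_eq_pl hP']
    refine ⟨w', hw', mk_bd hw'' (pC_filter_it _) ?_ pC_head ?_⟩
    · intro c hc
      by_cases hc0 : c = 0
      · omega
      · have h1 : c ∈ M.filter ny := by
          rw [List.mem_filter]
          refine ⟨hc, ?_⟩
          unfold ny
          rw [decide_eq_true_iff]
          exact hc0
        rw [hMf] at h1
        have := zz_mod h1
        omega
    · intro h'' hM
      apply hthr
      have e1 : (0 :: (zz h'' ++ [0])).filter ny = zz h'' := by
        rw [List.filter_cons_of_neg (by decide), List.filter_append]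
        have e2 : (zz h'').filter ny = zz h'' := by
          rw [List.filter_eq_self]
          intro c hc
          have := zz_mod hc
          unfold ny
          rw [decide_eq_true_iff]
          omega
        rw [e2]
        have e3 : [0].filter ny = [] := by decide
        rw [e3, List.append_nil]
      rw [hM, e1] at hMf
      have hinj : Function.Injective (fun i : ℕ => 3 * i + 2) := by
        intro i j hij
        have : 3 * i + 2 = 3 * j + 2 := hij
        omega
      have e4 : h'' = h' := (List.map_injective_iff.2 hinj) hMf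
      refine ⟨h'', pC a' b' (q :: Q), by rw [e4]; exact hh', pC_filter_nz _,
        fun c hc h3 => pC_mem hc h3, pC_head, ?_⟩
      rw [hw'', hM]
      simp

end Pool.Agent.MWI.H86
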